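import Pool.Agent.H43.FT.Defs

set_option autoImplicit false

open MvPolynomial Filter Topology Pool.Agent.H77.FB Pool.Agent.H60.FB Pool.Agent.H77.N2

namespace Pool.Agent.H30.FTW

open scoped InnerProductSpace

open Pool.Agent.H43.FT

/-- Bernoulli: `w^(1+γ)` is at most its second order expansion at `v`. -/
theorem pow_le {γ v w : ℝ} (hγ : 0 < γ) (hγ1 : γ ≤ 1) (hv : 0 < v) (hw : 0 ≤ w) :
    w ^ (1 + γ) ≤ v ^ (1 + γ) + v ^ γ * ((1 + γ) * (w - v) + γ * (w - v) ^ 2 / v) := by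
  have h1 : (w / v) ^ γ ≤ 1 + γ * (w / v - 1) := by
    have := rpow_one_add_le_one_add_mul_self (s := w / v - 1) (p := γ)
      (by have := div_nonneg hw hv.le; linarith) hγ.le hγ1
    simpa using this
  have hwv : 0 ≤ w / v := div_nonneg hw hv.le
  have h2 : (w / v) ^ (1 + γ) ≤ (w / v) * (1 + γ * (w / v - 1)) := by
    rw [Real.rpow_add_of_nonneg hwv zero_le_one hγ.le, Real.rpow_one]
    exact mul_le_mul_of_nonneg_left h1 hwv
  have h3 : w ^ (1 + γ) = v ^ (1 + γ) * (w / v) ^ (1 + γ) := by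
    rw [Real.div_rpow hw hv.le, mul_div_cancel₀]
    exact (Real.rpow_pos_of_pos hv _).ne'
  have h4 : v ^ (1 + γ) = v * v ^ γ := by
    rw [Real.rpow_add hv, Real.rpow_one]
  have h5 : 0 < v ^ γ := Real.rpow_pos_of_pos hv _
  rw [h3]
  calc v ^ (1 + γ) * (w / v) ^ (1 + γ) ≤ v ^ (1 + γ) * ((w / v) * (1 + γ * (w / v - 1))) :=
        mul_le_mul_of_nonneg_left h2 (by positivity)
    _ = v ^ (1 + γ) + v ^ γ * ((1 + γ) * (w - v) + γ * (w - v) ^ 2 / v) := by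
        rw [h4]
        field_simp
        ring

/-- The weight. -/
noncomputable def Ph (B L γ x : ℝ) : ℝ := B * x + L * x ^ (2 + 2 * γ)

/-- The slope of the gradient. -/
noncomputable def sl (B L γ x : ℝ) : ℝ := B / x + 2 * (1 + γ) * L * x ^ (2 * γ)

theorem Ph_le {B L γ x y : ℝ} (hB : 0 ≤ B) (hL : 0 ≤ L) (hγ : 0 < γ) (hγ1 : γ ≤ 1)
    (hx : 0 < x) (hy : 0 ≤ y) :
    Ph B L γ y ≤ Ph B L γ x + sl B L γ x / 2 * (y ^ 2 - x ^ 2)
      + γ * L * x ^ (2 * γ) * (y ^ 2 - x ^ 2) ^ 2 / x ^ 2 := by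
  unfold Ph sl
  have e1 : ∀ t : ℝ, 0 ≤ t → t ^ (2 + 2 * γ) = (t ^ 2) ^ (1 + γ) := by
    intro t ht
    rw [show (2 + 2 * γ) = ((2 : ℕ) : ℝ) * (1 + γ) by push_cast; ring, Real.rpow_mul ht,
      Real.rpow_natCast]
  have e2 : x ^ (2 * γ) = (x ^ 2) ^ γ := by
    rw [show (2 * γ) = ((2 : ℕ) : ℝ) * γ by push_cast; ring, Real.rpow_mul hx.le,
      Real.rpow_natCast]
  have h1 := pow_le hγ hγ1 (pow_pos hx 2) (sq_nonneg y)
  rw [e1 y hy, e1 x hx.le, e2]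
  have h2 : B * y ≤ B * x + B / x / 2 * (y ^ 2 - x ^ 2) := by
    have h3 : y - x ≤ (y ^ 2 - x ^ 2) / (2 * x) := by
      rw [le_div_iff₀ (by positivity)]
      nlinarith [sq_nonneg (y - x)]
    have h4 := mul_le_mul_of_nonneg_left h3 hB
    have h5 : B * ((y ^ 2 - x ^ 2) / (2 * x)) = B / x / 2 * (y ^ 2 - x ^ 2) := by
      field_simp
    linarith
  have h6 := mul_le_mul_of_nonneg_left h1 hL
  have h7 : L * ((x ^ 2) ^ (1 + γ) + (x ^ 2) ^ γ * ((1 + γ) * (y ^ 2 - x ^ 2)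
      + γ * (y ^ 2 - x ^ 2) ^ 2 / x ^ 2)) = L * (x ^ 2) ^ (1 + γ)
      + (2 * (1 + γ) * L * (x ^ 2) ^ γ) / 2 * (y ^ 2 - x ^ 2)
      + γ * L * (x ^ 2) ^ γ * (y ^ 2 - x ^ 2) ^ 2 / x ^ 2 := by
    field_simp
    ring
  rw [h7] at h6
  calc B * y + L * (y ^ 2) ^ (1 + γ) ≤ _ := add_le_add h2 h6
    _ = _ := by ring

variable {n : ℕ}

/-- The touching paraboloid at a maximum point of `M exp(-Φ)`. -/
theorem touch_max (M : V n → ℝ) (b : V n) {B L γ : ℝ} (hB : 0 ≤ B) (hL : 0 ≤ L) (hγ : 0 < γ)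
    (hγ1 : γ ≤ 1) (hb : b ≠ 0) (hM : 0 ≤ M b)
    (hmax : ∀ z, M z * Real.exp (-Ph B L γ ‖z‖) ≤ M b * Real.exp (-Ph B L γ ‖b‖)) :
    Touch M b ((sl B L γ ‖b‖ : ℂ) • b) ((1 + 9 * γ) * sl B L γ ‖b‖) ‖b‖ := by
  intro z hz
  have hx : 0 < ‖b‖ := norm_pos_iff.2 hb
  set x := ‖b‖ with hxdef
  set s := sl B L γ x with hs
  have h1 := hmax z
  have h2 : M z ≤ M b * Real.exp (Ph B L γ ‖z‖ - Ph B L γ x) := by
    have h3 : M z = M z * Real.exp (-Ph B L γ ‖z‖) * Real.exp (Ph B L γ ‖z‖) := by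
      rw [mul_assoc, ← Real.exp_add, neg_add_cancel, Real.exp_zero, mul_one]
    rw [h3]
    calc M z * Real.exp (-Ph B L γ ‖z‖) * Real.exp (Ph B L γ ‖z‖)
        ≤ M b * Real.exp (-Ph B L γ x) * Real.exp (Ph B L γ ‖z‖) :=
          mul_le_mul_of_nonneg_right h1 (Real.exp_pos _).le
      _ = M b * Real.exp (Ph B L γ ‖z‖ - Ph B L γ x) := by
          rw [mul_assoc, ← Real.exp_add]
          congr 2
          ring
  refine h2.trans (mul_le_mul_of_nonneg_left (Real.exp_le_exp.2 ?_) hM)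
  have h3 := Ph_le (B := B) (L := L) hB hL hγ hγ1 hx (norm_nonneg z)
  -- the square of the norm
  have h4 : ‖z‖ ^ 2 - x ^ 2 = 2 * (⟪b, z - b⟫_ℂ).re + ‖z - b‖ ^ 2 := by
    have h5 : z = b + (z - b) := by abel
    have h6 := @norm_add_sq ℂ (V n) _ _ _ b (z - b)
    rw [← h5] at h6
    rw [h6]
    simp only [RCLike.re_to_complex]
    rw [hxdef]
    ring
  have h5 : (⟪(s : ℂ) • b, z - b⟫_ℂ).re = s * (⟪b, z - b⟫_ℂ).re := by
    rw [inner_smul_left, Complex.conj_ofReal, Complex.re_ofReal_mul]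
  have h6 : |‖z‖ ^ 2 - x ^ 2| ≤ 3 * x * ‖z - b‖ := by
    have h7 : |‖z‖ - x| ≤ ‖z - b‖ := abs_norm_sub_norm_le z b
    have h8 : ‖z‖ ≤ 2 * x := by
      have := norm_le_norm_add_norm_sub b z
      rw [norm_sub_rev] at this
      linarith
    have h9 : ‖z‖ ^ 2 - x ^ 2 = (‖z‖ - x) * (‖z‖ + x) := by ring
    rw [h9, abs_mul, abs_of_nonneg (by positivity : 0 ≤ ‖z‖ + x)]
    nlinarith [norm_nonneg (z - b), norm_nonneg z, abs_nonneg (‖z‖ - x)]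
  have h7 : (‖z‖ ^ 2 - x ^ 2) ^ 2 ≤ 9 * x ^ 2 * ‖z - b‖ ^ 2 := by
    rw [← sq_abs]
    calc |‖z‖ ^ 2 - x ^ 2| ^ 2 ≤ (3 * x * ‖z - b‖) ^ 2 :=
          pow_le_pow_left₀ (abs_nonneg _) h6 2
      _ = 9 * x ^ 2 * ‖z - b‖ ^ 2 := by ring
  have hLx : 0 ≤ L * x ^ (2 * γ) := by positivity
  have h8 : L * x ^ (2 * γ) ≤ s / 2 := by
    rw [hs]
    unfold sl
    have : 0 ≤ B / x := by positivity
    nlinarith
  have h9 : γ * L * x ^ (2 * γ) * (‖z‖ ^ 2 - x ^ 2) ^ 2 / x ^ 2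
      ≤ γ * (s / 2) * (9 * ‖z - b‖ ^ 2) := by
    rw [div_le_iff₀ (by positivity)]
    calc γ * L * x ^ (2 * γ) * (‖z‖ ^ 2 - x ^ 2) ^ 2
        ≤ γ * L * x ^ (2 * γ) * (9 * x ^ 2 * ‖z - b‖ ^ 2) :=
          mul_le_mul_of_nonneg_left h7 (by positivity)
      _ = γ * (L * x ^ (2 * γ)) * (9 * x ^ 2 * ‖z - b‖ ^ 2) := by ring
      _ ≤ γ * (s / 2) * (9 * x ^ 2 * ‖z - b‖ ^ 2) :=
          mul_le_mul_of_nonneg_right (mul_le_mul_of_nonneg_left h8 hγ.le) (by positivity)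
      _ = γ * (s / 2) * (9 * ‖z - b‖ ^ 2) * x ^ 2 := by ring
  rw [h5]
  rw [h4] at h3
  rw [h4] at h9
  have h10 : s / 2 * (2 * (⟪b, z - b⟫_ℂ).re + ‖z - b‖ ^ 2) + γ * (s / 2) * (9 * ‖z - b‖ ^ 2)
      = s * (⟪b, z - b⟫_ℂ).re + (1 + 9 * γ) * s / 2 * ‖z - b‖ ^ 2 := by ring
  linarith

/-- The numerical facts at the maximum point. -/
theorem sl_facts {B L x : ℝ} (hB : 1 ≤ B) (hL : 0 ≤ L) (hx : 0 < x)
    (h : Ph B L (1 / B) x ≤ x ^ 2 / 2) :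
    0 < sl B L (1 / B) x ∧ sl B L (1 / B) x ≤ 1 + 1 / B ∧ B ≤ sl B L (1 / B) x * x ∧
      sl B L (1 / B) x * x * x ≤ 4 * Ph B L (1 / B) x := by
  have hB0 : 0 < B := by linarith
  set γ := 1 / B with hγ
  have hγ0 : 0 < γ := by positivity
  have hγ1 : γ ≤ 1 := by rw [hγ, div_le_one hB0]; exact hB
  have e1 : x ^ (2 + 2 * γ) = x ^ 2 * x ^ (2 * γ) := by
    rw [Real.rpow_add hx]
    congr 1
    rw [show (2 : ℝ) = ((2 : ℕ) : ℝ) by norm_num, Real.rpow_natCast]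
  unfold Ph at h ⊢
  unfold sl
  rw [e1] at h ⊢
  set q := L * x ^ (2 * γ) with hq
  have hq0 : 0 ≤ q := by positivity
  have h1 : B * x + x ^ 2 * q ≤ x ^ 2 / 2 := by rw [hq]; linarith
  have h2 : B / x * x = B := by field_simp
  have h3 : B / x + q ≤ 1 / 2 := by
    have h4 : (B / x + q) * x ^ 2 ≤ 1 / 2 * x ^ 2 := by
      calc (B / x + q) * x ^ 2 = (B / x * x) * x + q * x ^ 2 := by ring
        _ = B * x + x ^ 2 * q := by rw [h2]; ring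
        _ ≤ x ^ 2 / 2 := h1
        _ = 1 / 2 * x ^ 2 := by ring
    exact le_of_mul_le_mul_right h4 (by positivity)
  have h5 : 0 < B / x := by positivity
  refine ⟨?_, ?_, ?_, ?_⟩
  · have : 0 ≤ 2 * (1 + γ) * L * x ^ (2 * γ) := by positivity
    linarith
  · have : 2 * (1 + γ) * L * x ^ (2 * γ) = 2 * (1 + γ) * q := by rw [hq]; ring
    rw [this]
    nlinarith
  · have : 2 * (1 + γ) * L * x ^ (2 * γ) = 2 * (1 + γ) * q := by rw [hq]; ring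
    rw [this, add_mul, h2]
    have : 0 ≤ 2 * (1 + γ) * q * x := by positivity
    linarith
  · have : 2 * (1 + γ) * L * x ^ (2 * γ) = 2 * (1 + γ) * q := by rw [hq]; ring
    rw [this, add_mul, h2]
    have h6 : L * (x ^ 2 * x ^ (2 * γ)) = x ^ 2 * q := by rw [hq]; ring
    rw [h6]
    have h7 : 0 ≤ x ^ 2 * q := by positivity
    have h8 : 0 ≤ B * x := by positivity
    have h9 : 2 * (1 + γ) * q * x * x ≤ 4 * (x ^ 2 * q) := by nlinarith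
    nlinarith

end Pool.Agent.H30.FTW

namespace Pool.Agent.H30.FTW

open scoped InnerProductSpace

open Pool.Agent.H43.FT

theorem ft22_weight {n : ℕ} (B γ q : ℝ) (hB : 1 ≤ B) (hγ0 : 0 < γ) (hγ1 : γ ≤ 1) (hq : 0 < q)
    (M : V n → ℝ) (b : V n) (hb0 : b ≠ 0) (hM0 : 0 < M b)
    (hmax : ∀ z, M z * Real.exp (-(B * ‖z‖ + q * ‖z‖ ^ (2 + 2 * γ)))
      ≤ M b * Real.exp (-(B * ‖b‖ + q * ‖b‖ ^ (2 + 2 * γ)))) :
    Touch M b (((B / ‖b‖ + 2 * (1 + γ) * q * ‖b‖ ^ (2 * γ) : ℝ) : ℂ) • b)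
      ((1 + 9 * γ) * (B / ‖b‖ + 2 * (1 + γ) * q * ‖b‖ ^ (2 * γ))) ‖b‖ :=
  touch_max M b (by linarith) hq.le hγ0 hγ1 hb0 hM0.le hmax

end Pool.Agent.H30.FTW
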