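import Pool.Agent.H43.FT.Defs
import Pool.Agent.H30.FTW.Weight

set_option autoImplicit false

open MvPolynomial Filter Topology Pool.Agent.H77.FB Pool.Agent.H60.FB Pool.Agent.H77.N2

namespace Pool.Agent.H30.FTW

open scoped InnerProductSpace

open Pool.Agent.H43.FT

variable {n : ℕ}

/-- The ring of constants. -/
noncomputable def cstHom : ℂ →+* Pr n where
  toFun := cst
  map_one' := rfl
  map_mul' _ _ := rfl
  map_zero' := rfl
  map_add' _ _ := rfl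

theorem good_cst (𝒰 : Ultrafilter ℕ) (D : Dm n) :
    GoodRing 𝒰 D (fun (_ : PUnit) _ => (1 : ℝ)) (fun (_ : PUnit) _ => (1 : ℝ))
      (cstHom (n := n)).range where
  good := by
    rintro s ⟨c, rfl⟩
    refine ⟨Eventually.of_forall fun j => ⟨⟨?_, fun _ _ => rfl⟩, ⟨?_, fun _ _ => rfl⟩⟩, ?_⟩
    · exact differentiableOn_const c
    · exact differentiableOn_const c
    · by_cases hc : c = 0
      · left
        refine Eventually.of_forall fun j => ⟨fun z _ => ?_, fun z _ => ?_⟩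
        · exact hc
        · exact hc
      · right
        refine ⟨c, hc, PUnit.unit, fun ε hε => Eventually.of_forall fun j => ⟨fun z _ => ?_,
          fun z _ => ?_⟩⟩
        · change ‖c - c * ((1 : ℝ) : ℂ)‖ ≤ ε * 1
          simp [hε.le]
        · change ‖c - c * ((1 : ℝ) : ℂ)‖ ≤ ε * 1
          simp [hε.le]
  cst := fun c => ⟨c, rfl⟩
  mono := by
    intro g
    refine ⟨cst 1, ⟨1, rfl⟩, fun ε hε => Eventually.of_forall fun j => ⟨fun z _ => ?_,
          fun z _ => ?_⟩⟩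
    · change ‖(1 : ℂ) - 1 * ((1 : ℝ) : ℂ)‖ ≤ ε * 1
      simp [hε.le]
    · change ‖(1 : ℂ) - 1 * ((1 : ℝ) : ℂ)‖ ≤ ε * 1
      simp [hε.le]

theorem rpow_atTop {𝒰 : Ultrafilter ℕ} {ξ : ℕ → ℝ} (hξ : Tendsto ξ 𝒰 atTop) {q : ℝ}
    (hq : 0 < q) : Tendsto (fun j => ξ j ^ q) 𝒰 atTop :=
  (tendsto_rpow_atTop hq).comp hξ

theorem scl_start (𝒰 : Ultrafilter ℕ) (ξ ξ' : ℕ → ℝ) (h0 : ∀ j, 0 < ξ j ∧ 0 < ξ' j)
    (hξ : Tendsto ξ 𝒰 atTop) (hξ' : Tendsto ξ' 𝒰 atTop)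
    (hle : ∀ ε : ℝ, 0 < ε → ∀ᶠ j in (𝒰 : Filter ℕ), ξ' j ≤ (1 + ε) * ξ j) :
    Scl 𝒰 (ext (fun (_ : PUnit) _ => (1 : ℝ)) ξ) (ext (fun (_ : PUnit) _ => (1 : ℝ)) ξ') := by
  have key : ∀ ζ : ℕ → ℝ, (∀ j, 0 < ζ j) → ∀ g j,
      0 < ext (fun (_ : PUnit) _ => (1 : ℝ)) ζ g j := by
    intro ζ hζ g j
    unfold Pool.Agent.H43.FT.ext
    exact mul_pos one_pos (Real.rpow_pos_of_pos (hζ j) _)
  have kadd : ∀ ζ : ℕ → ℝ, (∀ j, 0 < ζ j) → ∀ (g h : PUnit × ℚ) j,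
      ext (fun (_ : PUnit) _ => (1 : ℝ)) ζ (g + h) j
        = ext (fun (_ : PUnit) _ => (1 : ℝ)) ζ g j * ext (fun (_ : PUnit) _ => (1 : ℝ)) ζ h j := by
    intro ζ hζ g h j
    unfold Pool.Agent.H43.FT.ext
    rw [Prod.snd_add, Rat.cast_add, Real.rpow_add (hζ j)]
    ring
  have ktop : ∀ ζ : ℕ → ℝ, Tendsto ζ 𝒰 atTop → ∀ (g : PUnit × ℚ), 0 < g.2 →
      Tendsto (ext (fun (_ : PUnit) _ => (1 : ℝ)) ζ g) 𝒰 atTop := by
    intro ζ hζ g hg
    have := rpow_atTop hζ (q := ((g.2 : ℚ) : ℝ)) (by exact_mod_cast hg)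
    refine this.congr fun j => ?_
    unfold Pool.Agent.H43.FT.ext
    rw [one_mul]
  refine ⟨key ξ fun j => (h0 j).1, key ξ' fun j => (h0 j).2, kadd ξ fun j => (h0 j).1,
    kadd ξ' fun j => (h0 j).2, ?_, ?_⟩
  · intro g hg
    have hg2 : g.2 ≠ 0 := by
      intro h
      apply hg
      exact Prod.ext (Subsingleton.elim _ _) h
    rcases lt_or_gt_of_ne hg2 with h | h
    · right
      have : 0 < (-g).2 := by
        rw [Prod.snd_neg]
        linarith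
      exact ⟨ktop ξ hξ _ this, ktop ξ' hξ' _ this⟩
    · left
      exact ⟨ktop ξ hξ _ h, ktop ξ' hξ' _ h⟩
  · intro g hg ε hε
    have hg2 : 0 < g.2 := by
      by_contra hcon
      rcases (not_lt.1 hcon).lt_or_eq with h | h
      · have h1 : 0 < (-g).2 := by
          rw [Prod.snd_neg]
          linarith
        have h2 := ktop ξ hξ _ h1
        have h3 : ∀ j, ext (fun (_ : PUnit) _ => (1 : ℝ)) ξ g j
            * ext (fun (_ : PUnit) _ => (1 : ℝ)) ξ (-g) j = 1 := by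
          intro j
          rw [← kadd ξ (fun j => (h0 j).1), add_neg_cancel]
          unfold Pool.Agent.H43.FT.ext
          simp
        have h4 := hg.eventually_gt_atTop 1
        have h5 := h2.eventually_gt_atTop 1
        obtain ⟨j, h6, h7⟩ := (h4.and h5).exists
        have h8 := h3 j
        nlinarith
      · have h4 := hg.eventually_gt_atTop 1
        obtain ⟨j, h6⟩ := h4.exists
        unfold Pool.Agent.H43.FT.ext at h6
        rw [h] at h6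
        simp at h6
    have hq : (0 : ℝ) < ((g.2 : ℚ) : ℝ) := by exact_mod_cast hg2
    -- choose η with (1+η)^q ≤ 1+ε
    set η := (1 + ε) ^ (1 / ((g.2 : ℚ) : ℝ)) - 1 with hη
    have hη0 : 0 < η := by
      rw [hη]
      have := Real.one_lt_rpow (by linarith : (1 : ℝ) < 1 + ε) (by positivity : 0 < 1 / ((g.2 : ℚ) : ℝ))
      linarith
    have hη1 : (1 + η) ^ (((g.2 : ℚ) : ℝ)) = 1 + ε := by
      rw [hη, add_sub_cancel, ← Real.rpow_mul (by linarith), one_div, inv_mul_cancel₀ hq.ne',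
        Real.rpow_one]
    filter_upwards [hle η hη0] with j hj
    unfold Pool.Agent.H43.FT.ext
    rw [one_mul, one_mul]
    calc ξ' j ^ (((g.2 : ℚ) : ℝ)) ≤ ((1 + η) * ξ j) ^ (((g.2 : ℚ) : ℝ)) :=
          Real.rpow_le_rpow (h0 j).2.le hj hq.le
      _ = (1 + ε) * ξ j ^ (((g.2 : ℚ) : ℝ)) := by
          rw [Real.mul_rpow (by linarith) (h0 j).1.le, hη1]

/-- the packaging of the start of the induction -/
theorem start_pack (P : MvPolynomial (Fin n) ℂ) (hP : P ≠ 0) (B₀ : ℝ)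
    (h : ℕ → (Fin n → ℂ) → ℂ) (A : ℕ → ℝ) (L : ℕ → ℝ) (b : ℕ → V n)
    (hd : ∀ j, Differentiable ℂ (h j)) (hA : ∀ j, 0 < A j) (hL : ∀ j, 0 ≤ L j)
    (htt : ∀ j z, ‖TT P (h j) z‖ ≤ A j * Real.exp (B₀ * ‖z‖))
    (hb : ∀ j : ℕ, ((j : ℝ) + 1) ^ 2 ≤ ‖b j‖)
    (hPh : ∀ j : ℕ, Ph ((j : ℝ) + 1) (L j) (1 / ((j : ℝ) + 1)) ‖b j‖ ≤ ‖b j‖ ^ 2 / 2)
    (hbig : ∀ j : ℕ, A j * Real.exp (Ph ((j : ℝ) + 1) (L j) (1 / ((j : ℝ) + 1)) ‖b j‖)
      ≤ MM (h j) (b j))
    (hmax : ∀ (j : ℕ) (z : V n),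
      MM (h j) z * Real.exp (-Ph ((j : ℝ) + 1) (L j) (1 / ((j : ℝ) + 1)) ‖z‖)
        ≤ MM (h j) (b j) * Real.exp (-Ph ((j : ℝ) + 1) (L j) (1 / ((j : ℝ) + 1)) ‖b j‖)) :
    ∃ (𝒰 : Ultrafilter ℕ) (Y₀ : ℕ → V n)
      (b₁ Y₁ : ℕ → V n) (R R' : ℕ → ℝ) (𝓕 : Subring (Pr n)) (a : Fin n → Pr n) (ω : V n)
      (ξ ξ' : ℕ → ℝ), (𝒰 : Filter ℕ) ≤ atTop ∧ Inst 𝒰 P h A B₀ b Y₀ ∧
      Exit 𝒰 h A b Y₀ (fun (_ : PUnit) _ => (1 : ℝ)) (fun (_ : PUnit) _ => (1 : ℝ)) ⊥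
        b₁ Y₁ R R' 𝓕 a b Y₀ ω ξ ξ' := by
  have hb0 : ∀ j, 0 < ‖b j‖ := fun j => lt_of_lt_of_le (by positivity) (hb j)
  have hbne : ∀ j, b j ≠ 0 := fun j => norm_pos_iff.1 (hb0 j)
  set s : ℕ → ℝ := fun j => sl ((j : ℝ) + 1) (L j) (1 / ((j : ℝ) + 1)) ‖b j‖ with hsdef
  have hfacts : ∀ j : ℕ, 0 < s j ∧ s j ≤ 1 + 1 / ((j : ℝ) + 1) ∧ ((j : ℝ) + 1) ≤ s j * ‖b j‖ ∧
      s j * ‖b j‖ * ‖b j‖ ≤ 4 * Ph ((j : ℝ) + 1) (L j) (1 / ((j : ℝ) + 1)) ‖b j‖ := fun j =>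
    sl_facts (by have : (0 : ℝ) ≤ (j : ℝ) := Nat.cast_nonneg j
                 linarith) (hL j) (hb0 j) (hPh j)
  set 𝒰 : Ultrafilter ℕ := hyperfilter ℕ with h𝒰def
  have h𝒰 : (𝒰 : Filter ℕ) ≤ atTop := Nat.hyperfilter_le_atTop
  have hjtop : Tendsto (fun j : ℕ => (j : ℝ) + 1) 𝒰 atTop :=
    (tendsto_atTop_add_const_right _ 1 tendsto_natCast_atTop_atTop).mono_left h𝒰
  have hbtop : Tendsto (fun j => ‖b j‖) 𝒰 atTop := by
    refine tendsto_atTop_mono (fun j => ?_) hjtop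
    have := hb j
    have h0 : (0 : ℝ) ≤ (j : ℝ) := Nat.cast_nonneg j
    nlinarith
  have hYn : ∀ j, ‖((s j : ℂ)) • b j‖ = s j * ‖b j‖ := by
    intro j
    rw [norm_smul, Complex.norm_real, Real.norm_of_nonneg (hfacts j).1.le]
  have hYtop : Tendsto (fun j => s j * ‖b j‖) 𝒰 atTop :=
    tendsto_atTop_mono (fun j => (hfacts j).2.2.1) hjtop
  -- the direction
  obtain ⟨ω, hω⟩ : ∃ ω : V n, Tendsto (fun j => ((‖b j‖ : ℂ))⁻¹ • b j) 𝒰 (𝓝 ω) := by
    have hcpt : IsCompact (Metric.closedBall (0 : V n) 1) := isCompact_closedBall _ _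
    have h1 : ∀ᶠ j in (𝒰 : Filter ℕ), ((‖b j‖ : ℂ))⁻¹ • b j ∈ Metric.closedBall (0 : V n) 1 := by
      refine Eventually.of_forall fun j => ?_
      rw [mem_closedBall_zero_iff, norm_smul, norm_inv, Complex.norm_real, norm_norm,
        inv_mul_cancel₀ (hb0 j).ne']
    have h2 := hcpt.ultrafilter_le_nhds (𝒰.map fun j => ((‖b j‖ : ℂ))⁻¹ • b j)
      (by rw [Ultrafilter.coe_map]; exact le_principal_iff.2 h1)
    obtain ⟨ω, _, h3⟩ := h2
    exact ⟨ω, h3⟩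
  have hωn : ‖ω‖ = 1 := by
    have h1 : Tendsto (fun j => ‖((‖b j‖ : ℂ))⁻¹ • b j‖) 𝒰 (𝓝 ‖ω‖) := hω.norm
    have h2 : (fun j => ‖((‖b j‖ : ℂ))⁻¹ • b j‖) = fun _ => (1 : ℝ) := by
      funext j
      rw [norm_smul, norm_inv, Complex.norm_real, norm_norm, inv_mul_cancel₀ (hb0 j).ne']
    rw [h2] at h1
    exact (tendsto_nhds_unique h1 tendsto_const_nhds)
  have hdir : ∀ ε : ℝ, 0 < ε → ∀ᶠ j in (𝒰 : Filter ℕ), ‖b j - (‖b j‖ : ℂ) • ω‖ ≤ ε * ‖b j‖ := by
    intro ε hε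
    have h1 := (Metric.tendsto_nhds.1 hω) ε hε
    filter_upwards [h1] with j hj
    rw [dist_eq_norm] at hj
    have h2 : b j - (‖b j‖ : ℂ) • ω = (‖b j‖ : ℂ) • (((‖b j‖ : ℂ))⁻¹ • b j - ω) := by
      rw [smul_sub, smul_smul, mul_inv_cancel₀, one_smul]
      exact_mod_cast (hb0 j).ne'
    rw [h2, norm_smul, Complex.norm_real, norm_norm, mul_comm]
    exact mul_le_mul_of_nonneg_right hj.le (hb0 j).le
  have hLL0 : ∀ y : ℕ → ℝ, (∀ j, 0 ≤ y j) → LL 𝒰 (fun _ => 0) y := by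
    intro y hy m _
    exact Eventually.of_forall fun j => by rw [mul_zero]; exact hy j
  have hs1 : ∀ ε : ℝ, 0 < ε → ∀ᶠ j : ℕ in (𝒰 : Filter ℕ), 1 / ((j : ℝ) + 1) ≤ ε := by
    intro ε hε
    filter_upwards [hjtop.eventually_ge_atTop (1 / ε)] with j hj
    have h0 : (0 : ℝ) ≤ (j : ℝ) := Nat.cast_nonneg j
    rw [div_le_iff₀ (by positivity)]
    rw [div_le_iff₀ hε] at hj
    linarith
  refine ⟨𝒰, fun j => (s j : ℂ) • b j, fun _ => 0, fun _ => 0, fun j => ‖b j‖ ^ 2,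
    fun j => s j * ‖b j‖, (cstHom (n := n)).range, fun _ => cst 0, ω, fun j => ‖b j‖,
    fun j => s j * ‖b j‖, h𝒰, ?_, ?_⟩
  · exact ⟨hP, hd, hA, htt, hbtop, by simpa only [hYn] using hYtop⟩
  · refine
      { cnt := inferInstance
        ring := good_cst _ _
        cen := ?_
        slp := ?_
        con := ?_
        inb := ?_
        inY := ?_
        hω := hωn
        hωE := by rw [Submodule.bot_orthogonal_eq_top]; exact Submodule.mem_top
        hξ0 := fun j => ⟨hb0 j, mul_pos (hfacts j).1 (hb0 j)⟩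
        hξ := hbtop
        hξ' := hYtop
        ξR := ?_
        ξR' := Eventually.of_forall fun j => le_rfl
        leb := ?_
        scl := ?_
        hu := ?_
        hU := ?_
        tch := ?_ }
    · refine ⟨fun i => ⟨0, rfl⟩, Eventually.of_forall fun j => ⟨fun z _ => ?_, fun z _ => ?_⟩⟩
      · simp [stDm]
      · simp [stDm]
    · intro ε hε
      refine Eventually.of_forall fun j => ⟨fun z _ w _ => ?_, fun z _ w _ => ?_⟩
      · simp [stDm, Pool.Agent.H43.FT.pt, Pool.Agent.H43.FT.cst]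
      · simp [stDm, Pool.Agent.H43.FT.fr, Pool.Agent.H43.FT.cst]
    · refine ⟨?_, ?_, ?_⟩
      · simp only [sub_self, norm_zero]
        exact hLL0 _ fun j => (hb0 j).le
      · simp only [sub_self, norm_zero]
        exact hLL0 _ fun j => norm_nonneg _
      · intro ε hε
        refine Eventually.of_forall fun j => ?_
        refine le_trans (mul_le_mul_of_nonneg_left (Real.exp_le_exp.2 ?_) (hA j).le) (hbig j)
        rw [hYn]
        have h1 := (hfacts j).2.2.2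
        have h2 : 0 ≤ ‖b j‖ * (s j * ‖b j‖) := by
          have := (hfacts j).1
          positivity
        nlinarith
    · simp only [Submodule.starProjection_bot, zero_apply, norm_zero]
      exact hLL0 _ fun j => by positivity
    · simp only [Submodule.starProjection_bot, zero_apply, norm_zero]
      exact hLL0 _ fun j => mul_nonneg (hfacts j).1.le (hb0 j).le
    · intro m hm
      filter_upwards [hbtop.eventually_ge_atTop m] with j hj
      calc m * ‖b j‖ ≤ ‖b j‖ * ‖b j‖ := mul_le_mul_of_nonneg_right hj (hb0 j).le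
        _ = ‖b j‖ ^ 2 := (pow_two _).symm
    · refine Eventually.of_forall fun j => ⟨by linarith [hb0 j], ?_⟩
      rw [hYn]
      have := mul_pos (hfacts j).1 (hb0 j)
      linarith
    · refine scl_start 𝒰 _ _ (fun j => ⟨hb0 j, mul_pos (hfacts j).1 (hb0 j)⟩) hbtop hYtop ?_
      intro ε hε
      filter_upwards [hs1 ε hε] with j hj
      exact mul_le_mul_of_nonneg_right ((hfacts j).2.1.trans (by linarith)) (hb0 j).le
    · intro m hm
      filter_upwards [hdir (1 / m) (by positivity)] with j hj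
      have h1 : pt (fun _ => cst 0) j (b j) = (0 : V n) := by
        ext i
        simp [Pool.Agent.H43.FT.pt, Pool.Agent.H43.FT.cst]
      rw [h1, sub_zero]
      calc m * ‖b j - (‖b j‖ : ℂ) • ω‖ ≤ m * (1 / m * ‖b j‖) :=
            mul_le_mul_of_nonneg_left hj hm.le
        _ = ‖b j‖ := by field_simp
    · intro m hm
      filter_upwards [hdir (1 / m) (by positivity)] with j hj
      have h1 : fr (fun _ => cst 0) j ((s j : ℂ) • b j) = (0 : V n) := by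
        ext i
        simp [Pool.Agent.H43.FT.fr, Pool.Agent.H43.FT.cst]
      rw [h1, sub_zero]
      have h2 : (s j : ℂ) • b j - ((s j * ‖b j‖ : ℝ) : ℂ) • ω
          = (s j : ℂ) • (b j - (‖b j‖ : ℂ) • ω) := by
        rw [smul_sub, smul_smul, Complex.ofReal_mul]
      rw [h2, norm_smul, Complex.norm_real, Real.norm_of_nonneg (hfacts j).1.le]
      calc m * (s j * ‖b j - (‖b j‖ : ℂ) • ω‖) = s j * (m * ‖b j - (‖b j‖ : ℂ) • ω‖) := by ring
        _ ≤ s j * (m * (1 / m * ‖b j‖)) :=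
            mul_le_mul_of_nonneg_left (mul_le_mul_of_nonneg_left hj hm.le) (hfacts j).1.le
        _ = s j * ‖b j‖ := by field_simp
    · intro ε hε
      refine ⟨1, one_pos, ?_⟩
      filter_upwards [hs1 (ε / 9) (by positivity)] with j hj
      have h0 : (0 : ℝ) ≤ (j : ℝ) := Nat.cast_nonneg j
      have h1 := touch_max (MM (h j)) (b j) (B := (j : ℝ) + 1) (L := L j)
        (γ := 1 / ((j : ℝ) + 1)) (by positivity) (hL j) (by positivity)
        (by rw [div_le_one (by positivity)]; linarith) (hbne j) (norm_nonneg _) (hmax j)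
      intro z hz
      rw [one_mul] at hz
      refine (h1 z hz).trans (mul_le_mul_of_nonneg_left (Real.exp_le_exp.2 ?_) (norm_nonneg _))
      have h2 : s j * ‖b j‖ / ‖b j‖ = s j := mul_div_cancel_right₀ _ (hb0 j).ne'
      rw [h2]
      have h3 : (1 + 9 * (1 / ((j : ℝ) + 1))) * s j ≤ (1 + ε) * s j :=
        mul_le_mul_of_nonneg_right (by linarith) (hfacts j).1.le
      have h4 : (1 + 9 * (1 / ((j : ℝ) + 1))) * s j / 2 * ‖z - b j‖ ^ 2
          ≤ (1 + ε) * s j / 2 * ‖z - b j‖ ^ 2 :=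
        mul_le_mul_of_nonneg_right (by linarith) (by positivity)
      linarith

end Pool.Agent.H30.FTW
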